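import Pool.Agent.Helper58.KB.Defs

/-!
Block P of the project on the triakis tetrahedra `K_Q`: what a packing by translates of `K_Q` and
`-K_Q` says about the lattice and the coset.
-/
set_option autoImplicit false
namespace Pool.Agent.Helper58.KB
open MeasureTheory Filter Topology
open scoped Pointwise ENNReal
open Pool.Agent.Helper84.Tet (E3)
open Pool.Agent.Helper84.Dbl (IsPackingFam dlFamily)

/-- Interior points of `K_Q`. -/
private def KS (Q x y z : ℝ) : Prop :=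
  (Q * (-x - y - z) - x < Q + 1 ∧ Q * (-x - y - z) - y < Q + 1 ∧ Q * (-x - y - z) - z < Q + 1) ∧
  (Q * (-x + y + z) - x < Q + 1 ∧ Q * (-x + y + z) + y < Q + 1 ∧ Q * (-x + y + z) + z < Q + 1) ∧
  (Q * (x - y + z) + x < Q + 1 ∧ Q * (x - y + z) - y < Q + 1 ∧ Q * (x - y + z) + z < Q + 1) ∧
  (Q * (x + y - z) + x < Q + 1 ∧ Q * (x + y - z) + y < Q + 1 ∧ Q * (x + y - z) - z < Q + 1)

private lemma KS_swap {Q x y z : ℝ} (h : KS Q x y z) : KS Q y x z := by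
  obtain ⟨⟨a1, a2, a3⟩, ⟨b1, b2, b3⟩, ⟨c1, c2, c3⟩, ⟨d1, d2, d3⟩⟩ := h
  refine ⟨⟨?_, ?_, ?_⟩, ⟨?_, ?_, ?_⟩, ⟨?_, ?_, ?_⟩, ⟨?_, ?_, ?_⟩⟩ <;> linarith

private lemma KS_swap' {Q x y z : ℝ} (h : KS Q x y z) : KS Q x z y := by
  obtain ⟨⟨a1, a2, a3⟩, ⟨b1, b2, b3⟩, ⟨c1, c2, c3⟩, ⟨d1, d2, d3⟩⟩ := h
  refine ⟨⟨?_, ?_, ?_⟩, ⟨?_, ?_, ?_⟩, ⟨?_, ?_, ?_⟩, ⟨?_, ?_, ?_⟩⟩ <;> linarith

private lemma KS_neg {Q x y z : ℝ} (h : KS Q x y z) : KS Q x (-y) (-z) := by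
  obtain ⟨⟨a1, a2, a3⟩, ⟨b1, b2, b3⟩, ⟨c1, c2, c3⟩, ⟨d1, d2, d3⟩⟩ := h
  refine ⟨⟨?_, ?_, ?_⟩, ⟨?_, ?_, ?_⟩, ⟨?_, ?_, ?_⟩, ⟨?_, ?_, ?_⟩⟩ <;> linarith

/-- Differences of interior points. -/
private def DS (Q x y z : ℝ) : Prop :=
  ∃ p q r : ℝ, KS Q p q r ∧ KS Q (p + x) (q + y) (r + z)

private lemma DS_swap {Q x y z : ℝ} (h : DS Q x y z) : DS Q y x z := by
  obtain ⟨p, q, r, h1, h2⟩ := h
  exact ⟨q, p, r, KS_swap h1, KS_swap h2⟩

private lemma DS_swap' {Q x y z : ℝ} (h : DS Q x y z) : DS Q x z y := by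
  obtain ⟨p, q, r, h1, h2⟩ := h
  exact ⟨p, r, q, KS_swap' h1, KS_swap' h2⟩

private lemma DS_neg {Q x y z : ℝ} (h : DS Q x y z) : DS Q (-x) y z := by
  obtain ⟨p, q, r, h1, h2⟩ := h
  refine ⟨p + x, -(q + y), -(r + z), KS_neg h2, ?_⟩
  have h3 := KS_neg h1
  have e1 : p + x + -x = p := by ring
  have e2 : -(q + y) + y = -q := by ring
  have e3 : -(r + z) + z = -r := by ring
  rw [e1, e2, e3]
  exact h3

private lemma DS_neg2 {Q x y z : ℝ} (h : DS Q x y z) : DS Q x (-y) z :=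
  DS_swap (DS_neg (DS_swap h))

private lemma DS_neg3 {Q x y z : ℝ} (h : DS Q x y z) : DS Q x y (-z) :=
  DS_swap' (DS_neg2 (DS_swap' h))

/-- The chamber `x ≥ y ≥ z ≥ 0`. -/
private lemma DS_chamber {Q x y z : ℝ} (hQ : 0 < Q) (hxy : y ≤ x) (hyz : z ≤ y) (hz : 0 ≤ z)
    (hx : x < 2) (hs : Q * (x + y + z) + x < 4 * Q + 2) : DS Q x y z := by
  have k1 : 0 ≤ Q * (x - y) := mul_nonneg hQ.le (by linarith)
  have k2 : 0 ≤ Q * (y - z) := mul_nonneg hQ.le (by linarith)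
  have k3 : 0 ≤ Q * z := mul_nonneg hQ.le hz
  have k4 : 0 < Q * (2 - x) := mul_pos hQ (by linarith)
  rcases le_total (y + z) x with hc | hc
  · have k5 : 0 ≤ Q * (x - y - z) := mul_nonneg hQ.le (by linarith)
    refine ⟨-x / 2, (z - y) / 2, (y - z) / 2, ?_, ?_⟩
    · refine ⟨⟨?_, ?_, ?_⟩, ⟨?_, ?_, ?_⟩, ⟨?_, ?_, ?_⟩, ⟨?_, ?_, ?_⟩⟩ <;> linarith
    · refine ⟨⟨?_, ?_, ?_⟩, ⟨?_, ?_, ?_⟩, ⟨?_, ?_, ?_⟩, ⟨?_, ?_, ?_⟩⟩ <;> linarith
  · have k5 : 0 ≤ Q * (y + z - x) := mul_nonneg hQ.le (by linarith)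
    obtain ⟨S, hS⟩ : ∃ S : ℝ, (4 * Q + 2) * S = Q * (x + y + z) + x :=
      ⟨(Q * (x + y + z) + x) / (4 * Q + 2), by field_simp⟩
    have hS1 : S < 1 := by
      by_contra hcon
      push Not at hcon
      nlinarith
    have hS0 : 0 ≤ S := by
      by_contra hcon
      push Not at hcon
      nlinarith
    have hSx : x ≤ 2 * S := by
      by_contra hcon
      push Not at hcon
      nlinarith
    have k6 : 0 < Q * (1 - S) := mul_pos hQ (by linarith)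
    have k7 : 0 ≤ Q * S := mul_nonneg hQ.le hS0
    refine ⟨S - x, S - y, S - z, ?_, ?_⟩
    · refine ⟨⟨?_, ?_, ?_⟩, ⟨?_, ?_, ?_⟩, ⟨?_, ?_, ?_⟩, ⟨?_, ?_, ?_⟩⟩ <;> linarith
    · have e1 : S - x + x = S := by ring
      have e2 : S - y + y = S := by ring
      have e3 : S - z + z = S := by ring
      rw [e1, e2, e3]
      refine ⟨⟨?_, ?_, ?_⟩, ⟨?_, ?_, ?_⟩, ⟨?_, ?_, ?_⟩, ⟨?_, ?_, ?_⟩⟩ <;> linarith

private lemma DS_nonneg {Q x y z : ℝ} (hQ : 0 < Q) (hx : 0 ≤ x) (hy : 0 ≤ y) (hz : 0 ≤ z)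
    (hx2 : x < 2) (hy2 : y < 2) (hz2 : z < 2) (h1 : Q * (x + y + z) + x < 4 * Q + 2)
    (h2 : Q * (x + y + z) + y < 4 * Q + 2) (h3 : Q * (x + y + z) + z < 4 * Q + 2) :
    DS Q x y z := by
  rcases le_total x y with a | a <;> rcases le_total y z with b | b <;>
    rcases le_total x z with c | c
  · -- x ≤ y ≤ z
    exact DS_swap (DS_swap' (DS_swap (DS_chamber hQ b a hx hz2 (by linarith))))
  · exact DS_swap (DS_swap' (DS_swap (DS_chamber hQ b a hx hz2 (by linarith))))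
  · -- x ≤ z ≤ y
    exact DS_swap (DS_swap' (DS_chamber hQ b c hx hy2 (by linarith)))
  · -- z ≤ x ≤ y
    exact DS_swap (DS_chamber hQ a c hz hy2 (by linarith))
  · -- y ≤ x ≤ z
    exact DS_swap' (DS_swap (DS_chamber hQ c a hy hz2 (by linarith)))
  · -- y ≤ z ≤ x
    exact DS_swap' (DS_chamber hQ c b hy hx2 (by linarith))
  · exact DS_chamber hQ a b hz hx2 h1
  · exact DS_chamber hQ a b hz hx2 h1

private lemma DS_of_abs {Q x y z : ℝ} (h : DS Q |x| |y| |z|) : DS Q x y z := by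
  have h1 : DS Q x |y| |z| := by
    rcases abs_choice x with e | e
    · rwa [e] at h
    · rw [e] at h
      have := DS_neg h
      rwa [neg_neg] at this
  have h2 : DS Q x y |z| := by
    rcases abs_choice y with e | e
    · rwa [e] at h1
    · rw [e] at h1
      have := DS_neg2 h1
      rwa [neg_neg] at this
  rcases abs_choice z with e | e
  · rwa [e] at h2
  · rw [e] at h2
    have := DS_neg3 h2
    rwa [neg_neg] at this

private lemma isOpen_KS (Q : ℝ) : IsOpen {v : E3 | KS Q (v 0) (v 1) (v 2)} := by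
  unfold KS
  repeat' apply IsOpen.and
  all_goals exact isOpen_lt (by fun_prop) (by fun_prop)

private lemma interior_of_KS {Q : ℝ} {v : E3} (h : KS Q (v 0) (v 1) (v 2)) :
    v ∈ interior (triakis Q) := by
  refine interior_maximal (fun w hw => ?_) (isOpen_KS Q) h
  obtain ⟨⟨a1, a2, a3⟩, ⟨b1, b2, b3⟩, ⟨c1, c2, c3⟩, ⟨d1, d2, d3⟩⟩ := hw
  exact ⟨⟨a1.le, a2.le, a3.le⟩, ⟨b1.le, b2.le, b3.le⟩, ⟨c1.le, c2.le, c3.le⟩,
    ⟨d1.le, d2.le, d3.le⟩⟩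

private lemma interior_neg' (K : Set E3) : interior (-K) = -interior K := by
  have h := (Homeomorph.neg E3).preimage_interior K
  exact h.symm

/-- P1: the lattice vectors lie outside the interior of `K_Q - K_Q`. -/
theorem pack_outDK {Q : ℝ} (hQ : 1 < Q) (Λ : Submodule ℤ E3) (v : E3)
    (hp : IsPackingFam (dlFamily (triakis Q) v Λ)) (u : E3) (hu : u ∈ Λ) (hu0 : u ≠ 0) :
    OutDK Q (u 0) (u 1) (u 2) := by
  by_contra hcon
  unfold OutDK at hcon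
  push Not at hcon
  obtain ⟨hx, hy, hz, h4, h5, h6⟩ := hcon
  obtain ⟨p, q, r, h1, h2⟩ := DS_of_abs (DS_nonneg (by linarith : 0 < Q) (abs_nonneg (u 0))
    (abs_nonneg (u 1)) (abs_nonneg (u 2)) hx hy hz h4 h5 h6)
  have hne : ((⟨u, hu⟩, true) : Λ × Bool) ≠ ((0 : Λ), true) := by
    intro h
    apply hu0
    have := congrArg (fun i : Λ × Bool => (i.1 : E3)) h
    exact this
  have h := hp hne
  simp only [dlFamily, if_true, interior_vadd] at h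
  rw [Set.disjoint_left] at h
  have a1 : (!₂[p, q, r] : E3) ∈ interior (triakis Q) := interior_of_KS (by simpa using h1)
  have a2 : (!₂[p + u 0, q + u 1, r + u 2] : E3) ∈ interior (triakis Q) :=
    interior_of_KS (by simpa using h2)
  refine @h (!₂[p + u 0, q + u 1, r + u 2]) ⟨!₂[p, q, r], a1, ?_⟩ ⟨_, a2, ?_⟩
  · show u + !₂[p, q, r] = _
    ext i
    fin_cases i <;> simp [add_comm]
  · show ((0 : Λ) : E3) + _ = _
    simp

/-- P2: the points of the coset lie outside the interior of `2 K_Q`. -/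
theorem pack_outTK {Q : ℝ} (_hQ : 1 < Q) (Λ : Submodule ℤ E3) (v : E3)
    (hp : IsPackingFam (dlFamily (triakis Q) v Λ)) (u : E3) (hu : u ∈ Λ) :
    OutTK Q (v 0 + u 0) (v 1 + u 1) (v 2 + u 2) := by
  by_contra hcon
  unfold OutTK at hcon
  push Not at hcon
  obtain ⟨⟨f1, f2, f3⟩, ⟨g1, g2, g3⟩, ⟨i1, i2, i3⟩, ⟨j1, j2, j3⟩⟩ := hcon
  have hne : ((0 : Λ), true) ≠ ((⟨u, hu⟩, false) : Λ × Bool) := by
    intro h
    have := congrArg (fun i : Λ × Bool => i.2) h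
    simp at this
  have h := hp hne
  simp only [dlFamily, if_true, interior_vadd] at h
  rw [Set.disjoint_left] at h
  have a1 : ((1 / 2 : ℝ) • (v + u)) ∈ interior (triakis Q) := by
    apply interior_of_KS
    simp only [PiLp.smul_apply, PiLp.add_apply, smul_eq_mul]
    refine ⟨⟨?_, ?_, ?_⟩, ⟨?_, ?_, ?_⟩, ⟨?_, ?_, ?_⟩, ⟨?_, ?_, ?_⟩⟩ <;> linarith
  refine @h ((1 / 2 : ℝ) • (v + u)) ⟨_, a1, ?_⟩ ?_
  · show ((0 : Λ) : E3) + _ = _
    simp
  · simp only [Bool.false_eq_true, if_false, interior_vadd, interior_neg']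
    refine ⟨v + -((1 / 2 : ℝ) • (v + u)), ⟨-((1 / 2 : ℝ) • (v + u)), ?_, rfl⟩, ?_⟩
    · rw [Set.mem_neg, neg_neg]
      exact a1
    · show u + (v + -((1 / 2 : ℝ) • (v + u))) = _
      have : u + (v + -((1 / 2 : ℝ) • (v + u))) = (v + u) - (1 / 2 : ℝ) • (v + u) := by abel
      rw [this]
      have h2 : v + u = (1 : ℝ) • (v + u) := (one_smul _ _).symm
      nth_rewrite 1 [h2]
      rw [← sub_smul]
      norm_num

end Pool.Agent.Helper58.KB
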