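import Pool.Agent.Helper84.Tet.Mink

/-!
A sharper form of Minkowski's theorem for the truncated box `|v j| < 2` (`j ≠ i`), `|v i| < κ`,
`|v 0| + |v 1| + |v 2| < 4`, with the exact volume of the box.
-/
set_option autoImplicit false
namespace Pool.Agent.Helper58.KB
open MeasureTheory
open Pool.Agent.Helper84.Tet

/-- The corner cut off from the box. -/
private def Cor (i : Fin 3) (κ : ℝ) : Set (Fin 3 → ℝ) :=
  {z | z ∈ SimpC κ ∧ ∀ j, j ≠ i → z j ≤ 2}

/-- A translate of a small simplex. -/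
private def Sm (j : Fin 3) (κ : ℝ) : Set (Fin 3 → ℝ) :=
  {z | z + (fun l => if l = j then -2 else 0) ∈ SimpO (κ - 2)}

private theorem measurableSet_SimpO (s : ℝ) : MeasurableSet (SimpO s) := by
  unfold SimpO
  refine MeasurableSet.inter ?_ (MeasurableSet.inter ?_ (MeasurableSet.inter ?_ ?_))
  · exact measurableSet_lt measurable_const (measurable_pi_apply 0)
  · exact measurableSet_lt measurable_const (measurable_pi_apply 1)
  · exact measurableSet_lt measurable_const (measurable_pi_apply 2)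
  · exact measurableSet_lt (((measurable_pi_apply 0).add (measurable_pi_apply 1)).add
      (measurable_pi_apply 2)) measurable_const

private theorem measurableSet_Sm (j : Fin 3) (κ : ℝ) : MeasurableSet (Sm j κ) := by
  unfold Sm
  exact (measurableSet_SimpO _).preimage (by fun_prop)

private theorem vol_Sm (j : Fin 3) (κ : ℝ) : volume (Sm j κ) = volume (SimpO (κ - 2)) := by
  unfold Sm
  exact measure_preimage_add_right volume _ _

private theorem mem_Sm {j : Fin 3} {κ : ℝ} {z : Fin 3 → ℝ} (hz : z ∈ Sm j κ) :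
    2 < z j ∧ (∀ l, 0 < z l) ∧ z 0 + z 1 + z 2 < κ := by
  obtain ⟨h0, h1, h2, h3⟩ := hz
  simp only [Pi.add_apply] at h0 h1 h2 h3
  fin_cases j
  · simp at h0 h1 h2 h3
    refine ⟨by simpa using h0, ?_, by linarith⟩
    intro l
    fin_cases l
    · simp; linarith
    · exact h1
    · exact h2
  · simp at h0 h1 h2 h3
    refine ⟨by simpa using h1, ?_, by linarith⟩
    intro l
    fin_cases l
    · exact h0
    · simp; linarith
    · exact h2
  · simp at h0 h1 h2 h3
    refine ⟨by simpa using h2, ?_, by linarith⟩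
    intro l
    fin_cases l
    · exact h0
    · exact h1
    · simp; linarith

private theorem vol_Cor {i j k : Fin 3} (hij : i ≠ j) (hik : i ≠ k) (hjk : j ≠ k) {κ : ℝ}
    (h2 : 2 ≤ κ) (h4 : κ ≤ 4) :
    volume (Cor i κ) + ENNReal.ofReal ((κ - 2) ^ 3 / 3) ≤ ENNReal.ofReal (κ ^ 3 / 6) := by
  have hsum : ∀ z : Fin 3 → ℝ, z 0 + z 1 + z 2 = z i + z j + z k := by
    intro z
    fin_cases i <;> fin_cases j <;> fin_cases k <;> simp at hij hik hjk ⊢ <;> ring
  have hd1 : Disjoint (Sm j κ) (Sm k κ) := by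
    rw [Set.disjoint_left]
    intro z hz hz'
    obtain ⟨a1, a2, a3⟩ := mem_Sm hz
    obtain ⟨b1, b2, b3⟩ := mem_Sm hz'
    have := a2 i
    have := hsum z
    linarith
  have hd2 : Disjoint (Cor i κ) (Sm j κ ∪ Sm k κ) := by
    rw [Set.disjoint_left]
    rintro z ⟨_, hz⟩ (hz' | hz')
    · have h1 := hz j hij.symm
      have h3 := (mem_Sm hz').1
      linarith
    · have h1 := hz k hik.symm
      have h3 := (mem_Sm hz').1
      linarith
  have hsub : Cor i κ ∪ (Sm j κ ∪ Sm k κ) ⊆ SimpC κ := by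
    rintro z (hz | hz | hz)
    · exact hz.1
    · obtain ⟨_, a2, a3⟩ := mem_Sm hz
      exact ⟨(a2 0).le, (a2 1).le, (a2 2).le, a3.le⟩
    · obtain ⟨_, a2, a3⟩ := mem_Sm hz
      exact ⟨(a2 0).le, (a2 1).le, (a2 2).le, a3.le⟩
  have h := measure_mono (μ := volume) hsub
  rw [measure_union hd2 ((measurableSet_Sm j κ).union (measurableSet_Sm k κ)),
    measure_union hd1 (measurableSet_Sm k κ), vol_Sm, vol_Sm] at h
  have h1 := le_vol_SimpO (s := κ - 2) (by linarith)
  have h3 : ENNReal.ofReal ((κ - 2) ^ 3 / 3) =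
      ENNReal.ofReal ((κ - 2) ^ 3 / 6) + ENNReal.ofReal ((κ - 2) ^ 3 / 6) := by
    have h5 : 0 ≤ (κ - 2) ^ 3 / 6 := by
      have : 0 ≤ κ - 2 := by linarith
      positivity
    rw [← ENNReal.ofReal_add h5 h5]
    congr 1
    ring
  rw [h3]
  calc volume (Cor i κ) + (ENNReal.ofReal ((κ - 2) ^ 3 / 6) + ENNReal.ofReal ((κ - 2) ^ 3 / 6))
      ≤ volume (Cor i κ) + (volume (SimpO (κ - 2)) + volume (SimpO (κ - 2))) := by gcongr
    _ ≤ volume (SimpC κ) := h
    _ ≤ _ := vol_SimpC_le (by linarith)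

/-- The bounds of the box. -/
private noncomputable def cc (i : Fin 3) (κ : ℝ) : Fin 3 → ℝ := fun j => if j = i then κ else 2

private theorem cc_sum (i : Fin 3) (κ : ℝ) : cc i κ 0 + cc i κ 1 + cc i κ 2 = κ + 4 := by
  unfold cc
  fin_cases i <;> simp <;> ring

private theorem cc_prod (i : Fin 3) (κ : ℝ) : cc i κ 0 * cc i κ 1 * cc i κ 2 = 4 * κ := by
  unfold cc
  fin_cases i
  · rw [if_pos (by decide), if_neg (by decide), if_neg (by decide)]
    ring
  · rw [if_neg (by decide), if_pos (by decide), if_neg (by decide)]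
    ring
  · rw [if_neg (by decide), if_neg (by decide), if_pos (by decide)]
    ring

private theorem cc_pos (i : Fin 3) {κ : ℝ} (h2 : 2 ≤ κ) (j : Fin 3) : 0 < cc i κ j := by
  unfold cc
  split_ifs
  · linarith
  · norm_num

private theorem vol_box (i : Fin 3) {κ : ℝ} (h2 : 2 ≤ κ) (h4 : κ ≤ 4) :
    ENNReal.ofReal (32 * κ) ≤
      volume (TBox (cc i κ)) + ENNReal.ofReal (4 / 3 * κ ^ 3 - 8 / 3 * (κ - 2) ^ 3) := by
  have hc := cc_pos i h2
  have hsum := cc_sum i κ
  have hbox : volume (Set.pi Set.univ (fun l : Fin 3 => Set.Ioo (-(cc i κ l)) (cc i κ l)))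
      = ENNReal.ofReal (32 * κ) := by
    rw [Real.volume_pi_Ioo, Fin.prod_univ_three, ← ENNReal.ofReal_mul (by linarith [hc 0]),
      ← ENNReal.ofReal_mul]
    · congr 1
      have := cc_prod i κ
      linear_combination 8 * this
    · have := hc 0
      have := hc 1
      nlinarith
  have hsub : Set.pi Set.univ (fun l : Fin 3 => Set.Ioo (-(cc i κ l)) (cc i κ l)) ⊆
      TBox (cc i κ) ∪ ⋃ k : Fin 2 × Fin 2 × Fin 2,
        {x : Fin 3 → ℝ | (fun i => sg k i * x i) ∈
          {y : Fin 3 → ℝ | (Matrix.diagonal (fun _ => (-1 : ℝ))).mulVec y + cc i κ ∈ Cor i κ}} := by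
    intro x hx
    have hx' : ∀ l, |x l| < cc i κ l := by
      intro l
      have := hx l (Set.mem_univ l)
      rw [abs_lt]; exact this
    by_cases h5 : |x 0| + |x 1| + |x 2| < 4
    · left; exact ⟨hx', h5⟩
    right
    simp only [Set.mem_iUnion]
    have key : ∀ y : ℝ, ∃ a : Fin 2, |y| = (if a = 0 then (1 : ℝ) else -1) * y := by
      intro y
      rcases abs_cases y with ⟨h, h'⟩ | ⟨h, h'⟩
      · exact ⟨0, by simp [h]⟩
      · exact ⟨1, by simp [h]⟩
    obtain ⟨a0, ha0⟩ := key (x 0)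
    obtain ⟨a1, ha1⟩ := key (x 1)
    obtain ⟨a2, ha2⟩ := key (x 2)
    refine ⟨(a0, a1, a2), ?_⟩
    have e0 : sg (a0, a1, a2) 0 * x 0 = |x 0| := by rw [ha0]; rfl
    have e1 : sg (a0, a1, a2) 1 * x 1 = |x 1| := by rw [ha1]; rfl
    have e2 : sg (a0, a1, a2) 2 * x 2 = |x 2| := by rw [ha2]; rfl
    have e3 : ∀ l, sg (a0, a1, a2) l * x l = |x l| := by
      intro l
      fin_cases l
      · exact e0
      · exact e1
      · exact e2
    have g0 := hx' 0
    have g1 := hx' 1
    have g2 := hx' 2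
    refine ⟨?_, ?_⟩
    · simp only [SimpC, Matrix.mulVec_diagonal, Set.mem_ofPred_eq, Pi.add_apply, e0, e1, e2]
      refine ⟨by linarith, by linarith, by linarith, by linarith⟩
    · intro j hj
      simp only [Matrix.mulVec_diagonal, Pi.add_apply, e3]
      have h6 : cc i κ j = 2 := by
        unfold cc
        rw [if_neg hj]
      rw [h6]
      have := abs_nonneg (x j)
      linarith
  have hdet : (Matrix.diagonal (fun _ : Fin 3 => (-1 : ℝ))).det = -1 := by
    rw [Matrix.det_diagonal, Fin.prod_univ_three]; norm_num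
  have hcorner : ∀ k : Fin 2 × Fin 2 × Fin 2,
      volume {x : Fin 3 → ℝ | (fun i => sg k i * x i) ∈
          {y : Fin 3 → ℝ | (Matrix.diagonal (fun _ => (-1 : ℝ))).mulVec y + cc i κ ∈ Cor i κ}} =
        volume (Cor i κ) := by
    intro k
    rw [vol_flip, vol_preimage_matrix _ _ (by rw [hdet]; norm_num), hdet]
    simp only [inv_neg, inv_one, abs_neg, abs_one, ENNReal.ofReal_one, one_mul]
  have hcor : volume (Cor i κ) ≤ ENNReal.ofReal (κ ^ 3 / 6 - (κ - 2) ^ 3 / 3) := by
    obtain ⟨j, k, hij, hik, hjk⟩ : ∃ j k : Fin 3, i ≠ j ∧ i ≠ k ∧ j ≠ k := by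
      fin_cases i
      · exact ⟨1, 2, by decide, by decide, by decide⟩
      · exact ⟨0, 2, by decide, by decide, by decide⟩
      · exact ⟨0, 1, by decide, by decide, by decide⟩
    have h := vol_Cor hij hik hjk h2 h4
    have h5 : 0 ≤ (κ - 2) ^ 3 / 3 := by
      have : 0 ≤ κ - 2 := by linarith
      positivity
    rw [ENNReal.ofReal_sub _ h5]
    exact ENNReal.le_sub_of_add_le_right ENNReal.ofReal_ne_top h
  rw [← hbox]
  calc _ ≤ _ := measure_mono hsub
    _ ≤ volume (TBox (cc i κ)) + _ := measure_union_le _ _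
    _ ≤ volume (TBox (cc i κ)) + ∑ k : Fin 2 × Fin 2 × Fin 2,
        ENNReal.ofReal (κ ^ 3 / 6 - (κ - 2) ^ 3 / 3) := by
        gcongr
        refine le_trans (measure_iUnion_fintype_le _ _) ?_
        exact Finset.sum_le_sum (fun k _ => by rw [hcorner k]; exact hcor)
    _ = _ := by
        congr 1
        simp only [Finset.sum_const, Finset.card_univ, Fintype.card_prod, Fintype.card_fin]
        rw [nsmul_eq_mul, show (((2 * (2 * 2) : ℕ) : ENNReal)) = ENNReal.ofReal 8 by norm_num,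
          ← ENNReal.ofReal_mul (by norm_num)]
        congr 1; ring

/-- Minkowski's theorem for the truncated box. -/
theorem minkowski_box (L : Submodule ℤ (Fin 3 → ℝ)) [DiscreteTopology L] [IsZLattice ℝ L]
    (i : Fin 3) {κ : ℝ} (h2 : 2 ≤ κ) (h4 : κ ≤ 4)
    (hL : 8 * ZLattice.covolume L + 4 / 3 * κ ^ 3 - 8 / 3 * (κ - 2) ^ 3 < 32 * κ) :
    ∃ v ∈ L, v ≠ 0 ∧ (∀ j, j ≠ i → |v j| < 2) ∧ |v i| < κ ∧ |v 0| + |v 1| + |v 2| < 4 := by
  have fund := ZLattice.isAddFundamentalDomain (IsZLattice.basis L) volume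
  set F := ZSpan.fundamentalDomain ((IsZLattice.basis L).ofZLatticeBasis ℝ) with hF
  have hcov : ZLattice.covolume L = volume.real F :=
    ZLattice.covolume_eq_measure_fundamentalDomain L volume fund
  have hcovpos : 0 < ZLattice.covolume L := ZLattice.covolume_pos L volume
  have hfin : volume F ≠ ⊤ := by
    intro h
    rw [hcov, Measure.real, h] at hcovpos
    simp at hcovpos
  have hvF : volume F = ENNReal.ofReal (ZLattice.covolume L) := by
    rw [hcov, Measure.real, ENNReal.ofReal_toReal hfin]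
  have hnn : 0 ≤ 4 / 3 * κ ^ 3 - 8 / 3 * (κ - 2) ^ 3 := by
    have h5 : 0 ≤ κ - 2 := by linarith
    have h6 : (κ - 2) ^ 3 ≤ (κ / 2) ^ 3 := pow_le_pow_left₀ h5 (by linarith) 3
    have h7 : (κ / 2) ^ 3 = κ ^ 3 / 8 := by ring
    have h8 : 0 ≤ κ ^ 3 := by positivity
    linarith
  have hlt : volume F * 2 ^ Module.finrank ℝ (Fin 3 → ℝ) < volume (TBox (cc i κ)) := by
    have h1 := vol_box i h2 h4
    rw [hvF, Module.finrank_fin_fun]
    have h8 : ((2 : ENNReal) ^ 3) = ENNReal.ofReal 8 := by norm_num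
    rw [h8, ← ENNReal.ofReal_mul (le_of_lt hcovpos)]
    by_contra hcon
    push Not at hcon
    have h3 : ENNReal.ofReal (32 * κ) ≤
        ENNReal.ofReal (ZLattice.covolume L * 8 + (4 / 3 * κ ^ 3 - 8 / 3 * (κ - 2) ^ 3)) := by
      rw [ENNReal.ofReal_add (by positivity) hnn]
      exact le_trans h1 (by gcongr)
    rw [ENNReal.ofReal_le_ofReal_iff (by positivity)] at h3
    linarith
  have : Countable L.toAddSubgroup := (inferInstance : Countable L)
  obtain ⟨x, hx0, hx⟩ := exists_ne_zero_mem_lattice_of_measure_mul_two_pow_lt_measure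
    (L := L.toAddSubgroup) fund (TBox_symm _) (TBox_convex _) hlt
  refine ⟨x, x.2, ?_, ?_, ?_, hx.2⟩
  · intro h
    apply hx0
    exact Subtype.ext h
  · intro j hj
    have h := hx.1 j
    unfold cc at h
    rwa [if_neg hj] at h
  · have h := hx.1 i
    unfold cc at h
    rwa [if_pos rfl] at h

end Pool.Agent.Helper58.KB
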